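import Pool.Agent.N300.UN.Stubs2
import Pool.Agent.H291R2.FZ.SEPW

/-!
# Absorption of `C([0,1]^n)` (project UN, task ABSN)
-/

set_option autoImplicit false

noncomputable section

namespace Pool.Agent.N207.UN

open Pool.Agent.H923R2.FP Pool.Agent.H923R2.FZ Pool.Agent.N300.UN

namespace ABSN

/-- reindexing -/
theorem free_comp {A : Type} [CStarAlgebra A] {τ : A →ₗ[ℂ] ℂ} {K K' : Type}
    {S : K → StarSubalgebra ℂ A} (h : FreeFam τ S) (φ : K' → K) (hφ : Function.Injective φ) :
    FreeFam τ (fun k => S (φ k)) := by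
  intro w hw hz hc
  have h1 := h (w.map fun z => (φ z.1, z.2)) (by simpa using hw) (by
    intro z hz'
    obtain ⟨y, hy, rfl⟩ := List.mem_map.mp hz'
    exact hz y hy) (by
    rw [List.isChain_map]
    exact hc.imp fun a b hab h => hab (hφ h))
  rw [List.map_map] at h1
  exact h1

/-- smaller algebras -/
theorem free_mono {A : Type} [CStarAlgebra A] {τ : A →ₗ[ℂ] ℂ} {K : Type}
    {S S' : K → StarSubalgebra ℂ A} (h : FreeFam τ S) (hle : ∀ k, S' k ≤ S k) :
    FreeFam τ S' :=
  fun w hw hz hc => h w hw (fun z hz' => ⟨hle _ (hz z hz').1, (hz z hz').2⟩) hc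

theorem range_comp {A B C : Type} [CStarAlgebra A] [CStarAlgebra B] [CStarAlgebra C]
    (ι : B →⋆ₐ[ℂ] A) (h : C →⋆ₐ[ℂ] B) : (ι.comp h).range = h.range.map ι := by
  ext x
  constructor
  · rintro ⟨y, rfl⟩
    exact ⟨h y, ⟨y, rfl⟩, rfl⟩
  · rintro ⟨_, ⟨y, rfl⟩, rfl⟩
    exact ⟨y, rfl⟩

/-- generation in a closed subalgebra -/
theorem gen_sub {B : Type} [CStarAlgebra B] (G : Set B) (T : StarSubalgebra ℂ B)
    (hT : T = (StarAlgebra.adjoin ℂ G).topologicalClosure) [IsClosed (T : Set B)]
    (G' : Set T) (hG : Subtype.val '' G' = G) :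
    (StarAlgebra.adjoin ℂ G').topologicalClosure = ⊤ := by
  rw [eq_top_iff]
  intro x _
  show x ∈ closure ((StarAlgebra.adjoin ℂ G' : StarSubalgebra ℂ T) : Set T)
  rw [closure_subtype]
  have h0 : T ≤ (StarAlgebra.adjoin ℂ G).topologicalClosure := hT.le
  have h1 : (x : B) ∈ closure ((StarAlgebra.adjoin ℂ G : StarSubalgebra ℂ B) : Set B) :=
    h0 x.2
  refine closure_mono ?_ h1
  have h3 : StarAlgebra.adjoin ℂ G ≤ (StarAlgebra.adjoin ℂ G').map T.subtype := by
    refine StarAlgebra.adjoin_le ?_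
    rw [← hG]
    rintro _ ⟨y, hy, rfl⟩
    exact ⟨y, StarAlgebra.subset_adjoin ℂ _ hy, rfl⟩
  intro y hy
  obtain ⟨z, hz, rfl⟩ := h3 hy
  exact ⟨z, hz, rfl⟩

/-- a family and the closure of the algebra generated by the rest -/
theorem free_T {B : Type} [CStarAlgebra B] {τ : B →ₗ[ℂ] ℂ} (hfts : FTS τ) (hG : S_GRP2)
    (hcl : S_CLO) {J I : Type} (E : J → StarSubalgebra ℂ B) (E' : I → StarSubalgebra ℂ B)
    (hfree : FreeFam τ (Sum.elim E E')) (T : StarSubalgebra ℂ B)
    (hT : T ≤ (⨆ o, E' o).topologicalClosure) :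
    FreeFam τ (fun o : Option J => o.elim T E) := by
  have h1 := hcl B τ hfts _ _ (hG B τ hfts _ _ hfree {o : J ⊕ I | o.isRight = true})
  let φ0 : J → {k : J ⊕ I // k ∉ {o : J ⊕ I | o.isRight = true}} :=
    fun j => ⟨Sum.inl j, by simp⟩
  have hφ0 : Function.Injective φ0 := by
    intro a b h
    exact Sum.inl_injective (congrArg Subtype.val h)
  have h2 := free_comp h1 (Option.map φ0) (Option.map_injective hφ0)
  refine free_mono h2 ?_
  rintro (_ | j)
  · refine hT.trans (StarSubalgebra.topologicalClosure_mono ?_)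
    refine iSup_le fun o => ?_
    exact le_iSup (fun k : {k : J ⊕ I // k ∈ {o : J ⊕ I | o.isRight = true}} =>
      Sum.elim E E' k.1) ⟨Sum.inr o, rfl⟩
  · exact StarSubalgebra.le_topologicalClosure _

end ABSN

theorem t_ABSN (hJ : S_CJN) (hhot : S_HOT) (hG : S_GRP2) (hU : S_UNG2) (hS : S_SUB)
    (hcl : S_CLO) : S_ABSN := by
  intro J D _ t n hn B _ τ e d f hfts htre htrd htrf hfree hgen
  set G : Set B := Set.range d ∪ ⋃ k, Set.range (f k) with hGdef
  set T : StarSubalgebra ℂ B := (StarAlgebra.adjoin ℂ G).topologicalClosure with hT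
  have hTc : IsClosed (T : Set B) := StarSubalgebra.isClosed_topologicalClosure _
  have hGT : ∀ x ∈ G, x ∈ T := fun x hx =>
    StarSubalgebra.le_topologicalClosure _ (StarAlgebra.subset_adjoin ℂ _ hx)
  let dT : C(Cube n, ℂ) →⋆ₐ[ℂ] T := d.codRestrict T (fun x => hGT _ (Or.inl ⟨x, rfl⟩))
  let fT : ℕ → (C(unitInterval, ℂ) →⋆ₐ[ℂ] T) := fun k =>
    (f k).codRestrict T (fun x => hGT _ (Or.inr (Set.mem_iUnion.mpr ⟨k, x, rfl⟩)))
  obtain ⟨hTfts, hTfree⟩ := hS B τ hfts T
  have hR : RFPw (J := Fin (0 + 1)) (fun _ => C(Cube n, ℂ)) (fun _ => lebn n)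
      (τ.comp T.subtype.toAlgHom.toLinearMap) (fun _ => dT) fT := by
    refine ⟨hTfts, fun _ x => htrd x, fun k x => htrf k x, ?_, ?_⟩
    · rw [← hTfree]
      have h1 := ABSN.free_comp hfree
        (fun o : Fin (0 + 1) ⊕ ℕ => (o.elim (fun _ => Sum.inr none) fun k => Sum.inr (some k) :
          J ⊕ Option ℕ)) (by
          rintro (a | a) (b | b) h
          · have : a = b := by omega
            rw [this]
          · simp at h
          · simp at h
          · simp only [Sum.elim_inr, Sum.inr.injEq, Option.some.injEq] at h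
            rw [h])
      convert h1 using 1
      funext o
      rcases o with o | k
      · exact (ABSN.range_comp T.subtype dT).symm
      · exact (ABSN.range_comp T.subtype (fT k)).symm
    · refine ABSN.gen_sub G T hT _ ?_
      ext x
      constructor
      · rintro ⟨y, hy, rfl⟩
        rcases hy with hy | hy
        · obtain ⟨_, z, rfl⟩ := Set.mem_iUnion.mp hy
          exact Or.inl ⟨z, rfl⟩
        · obtain ⟨k, z, rfl⟩ := Set.mem_iUnion.mp hy
          exact Or.inr (Set.mem_iUnion.mpr ⟨k, z, rfl⟩)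
      · rintro (⟨z, rfl⟩ | hx)
        · exact ⟨dT z, Or.inl (Set.mem_iUnion.mpr ⟨0, z, rfl⟩), rfl⟩
        · obtain ⟨k, z, rfl⟩ := Set.mem_iUnion.mp hx
          exact ⟨fT k z, Or.inr (Set.mem_iUnion.mpr ⟨k, z, rfl⟩), rfl⟩
  have hsep : TopologicalSpace.SeparableSpace T :=
    T_SEPW.t_SEPW (Fin (0 + 1)) (fun _ => C(Cube n, ℂ)) (fun _ => lebn n) T _ _ _ hR
  obtain ⟨f', hf'⟩ := hhot C(Cube n, ℂ) (lebn n) (hJ n hn) 0 T _ _ _ hR
  refine ⟨fun k => T.subtype.comp (f' k), hfts, htre, fun k x => hf'.trf k x, ?_, ?_⟩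
  · refine hU B τ hfts (J ⊕ ℕ) _ {k | k.isRight = true} T ?_ ?_ ?_
    · rintro (j | k) hk
      · simp at hk
      · show (T.subtype.comp (f' k)).range ≤ T
        rintro _ ⟨y, rfl⟩
        exact (f' k y).2
    · have h1 := hf'.free
      rw [← hTfree] at h1
      let φ0 : {k : J ⊕ ℕ // k ∈ {k : J ⊕ ℕ | k.isRight = true}} → Fin 0 ⊕ ℕ :=
        fun k => Sum.inr (k.1.elim (fun _ => 0) id)
      have hφ0 : Function.Injective φ0 := by
        rintro ⟨a | a, ha⟩ ⟨b | b, hb⟩ h
        · simp at ha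
        · simp at ha
        · simp at hb
        · have h' : a = b := Sum.inr_injective h
          simp only [h']
      have h2 := ABSN.free_comp h1 φ0 hφ0
      convert h2 using 1
      funext k
      obtain ⟨j | k, hk⟩ := k
      · simp at hk
      · exact ABSN.range_comp T.subtype (f' k)
    · -- the `e j` and `T`
      have hTle : T ≤ (⨆ o : Option ℕ, (o.elim d.range fun k => (f k).range :
          StarSubalgebra ℂ B)).topologicalClosure := by
        refine StarSubalgebra.topologicalClosure_mono ?_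
        refine StarAlgebra.adjoin_le ?_
        rintro x (hx | hx)
        · exact (le_iSup (fun o : Option ℕ => (o.elim d.range fun k => (f k).range :
            StarSubalgebra ℂ B)) none) hx
        · obtain ⟨k, hk⟩ := Set.mem_iUnion.mp hx
          exact (le_iSup (fun o : Option ℕ => (o.elim d.range fun k => (f k).range :
            StarSubalgebra ℂ B)) (some k)) hk
      have h1 := ABSN.free_T hfts hG hcl (fun j => (e j).range)
        (fun o : Option ℕ => (o.elim d.range fun k => (f k).range : StarSubalgebra ℂ B))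
        hfree T hTle
      let φ0 : {k : J ⊕ ℕ // k ∉ {k : J ⊕ ℕ | k.isRight = true}} → J :=
        fun k => match k with
          | ⟨Sum.inl j, _⟩ => j
          | ⟨Sum.inr k, hk⟩ => absurd rfl hk
      have hφ0 : Function.Injective φ0 := by
        rintro ⟨a | a, ha⟩ ⟨b | b, hb⟩ h
        · have h' : a = b := h
          simp only [h']
        · exact absurd rfl hb
        · exact absurd rfl ha
        · exact absurd rfl ha
      have h2 := ABSN.free_comp h1 (Option.map φ0) (Option.map_injective hφ0)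
      convert h2 using 1
      funext o
      rcases o with _ | ⟨j | k, hk⟩
      · rfl
      · rfl
      · exact absurd rfl hk
  · set M := (StarAlgebra.adjoin ℂ ((⋃ j, Set.range (e j)) ∪
      ⋃ k, Set.range (T.subtype.comp (f' k)))).topologicalClosure with hM
    have hsub : ((⋃ j, Set.range (e j)) ∪ ⋃ k, Set.range (T.subtype.comp (f' k))) ⊆
        (M : Set B) := (StarAlgebra.subset_adjoin ℂ _).trans
          (StarSubalgebra.le_topologicalClosure _)
    have hMc : IsClosed (M : Set B) := StarSubalgebra.isClosed_topologicalClosure _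
    have hTM : ∀ x : T, (x : B) ∈ M := by
      have h1 : (StarAlgebra.adjoin ℂ ((⋃ j : Fin 0, Set.range ((fun _ => dT) j.castSucc)) ∪
          ⋃ n, Set.range (f' n))).topologicalClosure ≤ M.comap T.subtype := by
        refine StarSubalgebra.topologicalClosure_minimal ?_ ?_
        · refine StarAlgebra.adjoin_le ?_
          rintro y (hy | hy)
          · obtain ⟨j, _⟩ := Set.mem_iUnion.mp hy
            exact j.elim0
          · obtain ⟨k, z, rfl⟩ := Set.mem_iUnion.mp hy
            exact hsub (Or.inr (Set.mem_iUnion.mpr ⟨k, z, rfl⟩))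
        · exact hMc.preimage continuous_subtype_val
      have h2 := hf'.gen
      rw [h2] at h1
      intro x
      exact h1 (show x ∈ (⊤ : StarSubalgebra ℂ T) from trivial)
    rw [eq_top_iff, ← hgen]
    refine StarSubalgebra.topologicalClosure_minimal ?_ hMc
    refine StarAlgebra.adjoin_le ?_
    rintro y ((hy | hy) | hy)
    · exact hsub (Or.inl hy)
    · exact hTM ⟨y, hGT y (Or.inl hy)⟩
    · exact hTM ⟨y, hGT y (Or.inr hy)⟩

end Pool.Agent.N207.UN
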