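import Pool.Agent.N300.UN.Stubs
import Pool.Agent.H536R2.FP_UNIQ
import Pool.Agent.H479R2.FP_MOM
import Pool.Agent.H357R4.FP_NRM
import Pool.Agent.H598R3.FZ_EX
import Pool.Agent.H205R2.FZ.FZ_EXG
import Pool.Agent.H205R2.FZ.FZ_EXL
import Pool.Agent.H821R6.FZ_AMP
import Pool.Agent.H923R2.FZ.EXF
import Pool.Agent.H205R2.FZ.FZ_EXC
import Pool.Agent.H61R2.FZ_TRC
import Pool.Agent.H291R2.FZ.LEBF
import Pool.Agent.H674R2.FZ_UNG2

/-!
# `B * C([0,1])^{*∞} ≅ B`, almost fixing a finite set (project UN, task DBL)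
-/

set_option autoImplicit false

noncomputable section

namespace Pool.Agent.N207.UN

open Pool.Agent.H923R2.FP Pool.Agent.H923R2.FZ Pool.Agent.N300.UN

namespace DBL

theorem ex : S_EX := T_EX.t_EX T_EXG.t_EXG (T_EXL.t_EXL T_AMP.t_AMP) T_EXF.t_EXF T_EXC.t_EXC
  T_TRC.t_TRC

theorem uniq : S_UNIQ := T_UNIQ.t_UNIQ T_MOM.t_MOM T_NRM.t_NRM

/-- reindexing -/
theorem free_comp {A : Type} [CStarAlgebra A] {τ : A →ₗ[ℂ] ℂ} {K K' : Type}
    {S : K → StarSubalgebra ℂ A} (h : FreeFam τ S) (φ : K' → K) (hφ : Function.Injective φ) :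
    FreeFam τ (fun k => S (φ k)) := by
  intro w hw hz hc
  have h1 := h (w.map fun z => (φ z.1, z.2)) (by simpa using hw) (by
    intro z hz'
    obtain ⟨y, hy, rfl⟩ := List.mem_map.mp hz'
    exact hz y hy) (by
    rw [List.isChain_map]
    exact hc.imp fun a b hab h => hab (hφ h))
  rw [List.map_map] at h1
  exact h1

/-- images under trace preserving homomorphisms -/
theorem free_map {A B : Type} [CStarAlgebra A] [CStarAlgebra B] {τ : B →ₗ[ℂ] ℂ}
    {τA : A →ₗ[ℂ] ℂ} (ι : B →⋆ₐ[ℂ] A) (htr : ∀ x, τA (ι x) = τ x) {K : Type}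
    {S : K → StarSubalgebra ℂ B} (h : FreeFam τ S) : FreeFam τA (fun k => (S k).map ι) := by
  intro w hw hz hc
  have hex : ∀ w : List (K × A), (∀ z ∈ w, z.2 ∈ (S z.1).map ι ∧ τA z.2 = 0) →
      ∃ w' : List (K × B), w'.map (fun z => (z.1, ι z.2)) = w ∧
        ∀ z ∈ w', z.2 ∈ S z.1 ∧ τ z.2 = 0 := by
    intro w
    induction w with
    | nil => intro _; exact ⟨[], rfl, by simp⟩
    | cons a w ih =>
      intro hz
      obtain ⟨w', h1, h2⟩ := ih (fun z hz' => hz z (List.mem_cons_of_mem _ hz'))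
      obtain ⟨h3, h4⟩ := hz a List.mem_cons_self
      obtain ⟨b, hb, hba⟩ := h3
      refine ⟨(a.1, b) :: w', ?_, ?_⟩
      · rw [List.map_cons, h1]
        have : ι b = a.2 := hba
        rw [this]
      · intro z hz'
        rcases List.mem_cons.mp hz' with rfl | hz'
        · refine ⟨hb, ?_⟩
          have : ι b = a.2 := hba
          rw [← htr, this, h4]
        · exact h2 z hz'
  obtain ⟨w', rfl, h2⟩ := hex w hz
  have hne : w' ≠ [] := by
    rintro rfl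
    exact hw rfl
  have h3 := h w' hne h2 (by
    rw [List.isChain_map] at hc
    exact hc)
  have h4 : (List.map Prod.snd (w'.map fun z => (z.1, ι z.2))).prod =
      ι ((w'.map Prod.snd).prod) := by
    rw [map_list_prod, List.map_map, List.map_map]
    rfl
  rw [h4, htr, h3]

def E1 (N n : ℕ) : ℕ ⊕ ℕ :=
  if n < N then Sum.inl n else
    if (n - N) % 2 = 0 then Sum.inl (N + (n - N) / 2) else Sum.inr ((n - N) / 2)

def E2 (N : ℕ) : ℕ ⊕ ℕ → ℕ
  | Sum.inl m => if m < N then m else N + 2 * (m - N)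
  | Sum.inr m => N + 2 * m + 1

theorem E12 (N : ℕ) (x : ℕ ⊕ ℕ) : E1 N (E2 N x) = x := by
  rcases x with m | m
  · unfold E1 E2
    simp only
    split_ifs with h1 h2 h3 <;> first | rfl | (exfalso; omega) | (congr 1; omega)
  · unfold E1 E2
    simp only
    split_ifs with h1 h2 <;> first | rfl | (exfalso; omega) | (congr 1; omega)

theorem E21 (N n : ℕ) : E2 N (E1 N n) = n := by
  unfold E1
  split_ifs with h1 h2
  · simp only [E2, if_pos h1]
  · simp only [E2]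
    rw [if_neg (by omega)]
    omega
  · simp only [E2]
    omega

theorem E1_lt {N n : ℕ} (h : n < N) : E1 N n = Sum.inl n := by
  unfold E1; rw [if_pos h]

theorem adj_fin {B : Type} [CStarAlgebra B] {J : Type} {D : J → Type} [∀ j, CStarAlgebra (D j)]
    (e : ∀ j, D j →⋆ₐ[ℂ] B) (f : ℕ → (C(unitInterval, ℂ) →⋆ₐ[ℂ] B)) (y : B)
    (hy : y ∈ StarAlgebra.adjoin ℂ ((⋃ j, Set.range (e j)) ∪ ⋃ n, Set.range (f n))) :
    ∃ N : ℕ, y ∈ StarAlgebra.adjoin ℂ ((⋃ j, Set.range (e j)) ∪ ⋃ n, ⋃ (_ : n < N),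
      Set.range (f n)) := by
  have hmono : ∀ {M N : ℕ}, M ≤ N →
      StarAlgebra.adjoin ℂ ((⋃ j, Set.range (e j)) ∪ ⋃ n, ⋃ (_ : n < M), Set.range (f n)) ≤
      StarAlgebra.adjoin ℂ ((⋃ j, Set.range (e j)) ∪ ⋃ n, ⋃ (_ : n < N), Set.range (f n)) := by
    intro M N h
    refine StarAlgebra.adjoin_mono (Set.union_subset_union_right _ ?_)
    exact Set.iUnion_mono fun n => Set.iUnion_subset fun hn =>
      Set.subset_iUnion_of_subset (lt_of_lt_of_le hn h) subset_rfl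
  induction hy using StarAlgebra.adjoin_induction with
  | mem x hx =>
    rcases hx with hx | hx
    · exact ⟨0, StarAlgebra.subset_adjoin ℂ _ (Or.inl hx)⟩
    · obtain ⟨n, hn⟩ := Set.mem_iUnion.mp hx
      exact ⟨n + 1, StarAlgebra.subset_adjoin ℂ _ (Or.inr
        (Set.mem_iUnion₂.mpr ⟨n, Nat.lt_succ_self n, hn⟩))⟩
  | algebraMap r => exact ⟨0, algebraMap_mem _ r⟩
  | add x y _ _ hx hy =>
    obtain ⟨M, hM⟩ := hx
    obtain ⟨N, hN⟩ := hy
    exact ⟨max M N, add_mem (hmono (le_max_left _ _) hM) (hmono (le_max_right _ _) hN)⟩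
  | mul x y _ _ hx hy =>
    obtain ⟨M, hM⟩ := hx
    obtain ⟨N, hN⟩ := hy
    exact ⟨max M N, mul_mem (hmono (le_max_left _ _) hM) (hmono (le_max_right _ _) hN)⟩
  | star x _ hx =>
    obtain ⟨M, hM⟩ := hx
    exact ⟨M, star_mem hM⟩

theorem fin_approx {B : Type} [CStarAlgebra B] {J : Type} {D : J → Type}
    [∀ j, CStarAlgebra (D j)]
    (e : ∀ j, D j →⋆ₐ[ℂ] B) (f : ℕ → (C(unitInterval, ℂ) →⋆ₐ[ℂ] B))
    (hgen : (StarAlgebra.adjoin ℂ ((⋃ j, Set.range (e j)) ∪ ⋃ n, Set.range (f n))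
      ).topologicalClosure = ⊤) (F : Finset B) (ε : ℝ) (hε : 0 < ε) :
    ∃ N : ℕ, ∀ x ∈ F, ∃ y ∈ StarAlgebra.adjoin ℂ ((⋃ j, Set.range (e j)) ∪
      ⋃ n, ⋃ (_ : n < N), Set.range (f n)), ‖x - y‖ < ε := by
  classical
  have hmono : ∀ {M N : ℕ}, M ≤ N →
      StarAlgebra.adjoin ℂ ((⋃ j, Set.range (e j)) ∪ ⋃ n, ⋃ (_ : n < M), Set.range (f n)) ≤
      StarAlgebra.adjoin ℂ ((⋃ j, Set.range (e j)) ∪ ⋃ n, ⋃ (_ : n < N), Set.range (f n)) := by
    intro M N h
    refine StarAlgebra.adjoin_mono (Set.union_subset_union_right _ ?_)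
    exact Set.iUnion_mono fun n => Set.iUnion_subset fun hn =>
      Set.subset_iUnion_of_subset (lt_of_lt_of_le hn h) subset_rfl
  have hone : ∀ x : B, ∃ N : ℕ, ∃ y ∈ StarAlgebra.adjoin ℂ ((⋃ j, Set.range (e j)) ∪
      ⋃ n, ⋃ (_ : n < N), Set.range (f n)), ‖x - y‖ < ε := by
    intro x
    have hx : x ∈ (StarAlgebra.adjoin ℂ ((⋃ j, Set.range (e j)) ∪ ⋃ n, Set.range (f n))
      ).topologicalClosure := by rw [hgen]; trivial
    have hx' : x ∈ closure ((StarAlgebra.adjoin ℂ ((⋃ j, Set.range (e j)) ∪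
        ⋃ n, Set.range (f n)) : StarSubalgebra ℂ B) : Set B) := hx
    obtain ⟨y, hy, hxy⟩ := Metric.mem_closure_iff.mp hx' ε hε
    obtain ⟨N, hN⟩ := adj_fin e f y hy
    exact ⟨N, y, hN, by rwa [← dist_eq_norm]⟩
  choose N hN using hone
  refine ⟨F.sup N, fun x hx => ?_⟩
  obtain ⟨y, hy, hxy⟩ := hN x
  exact ⟨y, hmono (Finset.le_sup hx) hy, hxy⟩

/-- the factors over `J ⊕ ℕ` -/
abbrev DD {J : Type} (D : J → Type) : J ⊕ ℕ → Type
  | Sum.inl j => D j
  | Sum.inr _ => C(unitInterval, ℂ)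

instance iDD {J : Type} (D : J → Type) [∀ j, CStarAlgebra (D j)] : ∀ o, CStarAlgebra (DD D o)
  | Sum.inl j => (inferInstance : CStarAlgebra (D j))
  | Sum.inr _ => (inferInstance : CStarAlgebra C(unitInterval, ℂ))

/-- the traces -/
def tt {J : Type} {D : J → Type} (t : ∀ j, D j → ℂ) : ∀ o, DD D o → ℂ
  | Sum.inl j => t j
  | Sum.inr _ => leb

/-- the homomorphisms -/
def ee {J : Type} {D : J → Type} [∀ j, CStarAlgebra (D j)] {B : Type} [CStarAlgebra B]
    (e : ∀ j, D j →⋆ₐ[ℂ] B) (f : ℕ → (C(unitInterval, ℂ) →⋆ₐ[ℂ] B)) :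
    ∀ o, DD D o →⋆ₐ[ℂ] B
  | Sum.inl j => e j
  | Sum.inr n => f n

theorem union_ee {J : Type} {D : J → Type} [∀ j, CStarAlgebra (D j)] {B : Type}
    [CStarAlgebra B] (e : ∀ j, D j →⋆ₐ[ℂ] B) (f : ℕ → (C(unitInterval, ℂ) →⋆ₐ[ℂ] B)) :
    (⋃ o, Set.range (ee e f o)) = (⋃ j, Set.range (e j)) ∪ ⋃ n, Set.range (f n) := by
  ext x
  simp only [Set.mem_union, Set.mem_iUnion]
  constructor
  · rintro ⟨j | n, h⟩
    · exact Or.inl ⟨j, h⟩
    · exact Or.inr ⟨n, h⟩
  · rintro (⟨j, h⟩ | ⟨n, h⟩)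
    · exact ⟨Sum.inl j, h⟩
    · exact ⟨Sum.inr n, h⟩

theorem rfp_of {J : Type} {D : J → Type} [∀ j, CStarAlgebra (D j)] {t : ∀ j, D j → ℂ}
    {B : Type} [CStarAlgebra B] {τ : B →ₗ[ℂ] ℂ} {e : ∀ j, D j →⋆ₐ[ℂ] B}
    {f : ℕ → (C(unitInterval, ℂ) →⋆ₐ[ℂ] B)} (h : RFPw D t τ e f) :
    RFP (DD D) (tt t) τ (ee e f) := by
  refine ⟨h.fts, ?_, ?_, ?_⟩
  · rintro (j | n) x
    · exact h.tr j x
    · exact h.trf n x
  · have h1 := h.free
    have h2 : (fun o : J ⊕ ℕ => o.elim (fun j => (e j).range) fun n => (f n).range) =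
        fun o => (ee e f o).range := by
      funext o
      rcases o with j | n <;> rfl
    exact h2 ▸ h1
  · rw [union_ee]; exact h.gen

/-- the big family -/
def Sb {J : Type} {D : J → Type} [∀ j, CStarAlgebra (D j)] {A B : Type} [CStarAlgebra A]
    [CStarAlgebra B] (e : ∀ j, D j →⋆ₐ[ℂ] B) (f : ℕ → (C(unitInterval, ℂ) →⋆ₐ[ℂ] B))
    (ι : B →⋆ₐ[ℂ] A) (g : ℕ → (C(unitInterval, ℂ) →⋆ₐ[ℂ] A)) :
    (J ⊕ ℕ) ⊕ ℕ → StarSubalgebra ℂ A
  | Sum.inl (Sum.inl j) => (ι.comp (e j)).range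
  | Sum.inl (Sum.inr n) => (ι.comp (f n)).range
  | Sum.inr k => (g k).range

theorem range_comp {A B C : Type} [CStarAlgebra A] [CStarAlgebra B] [CStarAlgebra C]
    (ι : B →⋆ₐ[ℂ] A) (h : C →⋆ₐ[ℂ] B) : (ι.comp h).range = h.range.map ι := by
  ext x
  constructor
  · rintro ⟨y, rfl⟩
    exact ⟨h y, ⟨y, rfl⟩, rfl⟩
  · rintro ⟨_, ⟨y, rfl⟩, rfl⟩
    exact ⟨y, rfl⟩

theorem big_free {J : Type} {D : J → Type} [∀ j, CStarAlgebra (D j)] {A B : Type}
    [CStarAlgebra A] [CStarAlgebra B] {τ : B →ₗ[ℂ] ℂ} {τA : A →ₗ[ℂ] ℂ} (hA : FTS τA)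
    (e : ∀ j, D j →⋆ₐ[ℂ] B) (f : ℕ → (C(unitInterval, ℂ) →⋆ₐ[ℂ] B))
    (ι : B →⋆ₐ[ℂ] A) (g : ℕ → (C(unitInterval, ℂ) →⋆ₐ[ℂ] A))
    (htr : ∀ x, τA (ι x) = τ x)
    (hB : FreeFam τ fun o : J ⊕ ℕ => o.elim (fun j => (e j).range) fun n => (f n).range)
    (hfree : FreeFam τA (fun o : Option ℕ => o.elim ι.range fun k => (g k).range)) :
    FreeFam τA (Sb e f ι g) := by
  refine T_UNG2.t_UNG2 A τA hA ((J ⊕ ℕ) ⊕ ℕ) (Sb e f ι g) {k | k.isLeft = true} ι.range
    ?_ ?_ ?_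
  · rintro ((j | n) | k) hk
    · show (ι.comp (e j)).range ≤ ι.range
      rintro _ ⟨y, rfl⟩
      exact ⟨e j y, rfl⟩
    · show (ι.comp (f n)).range ≤ ι.range
      rintro _ ⟨y, rfl⟩
      exact ⟨f n y, rfl⟩
    · simp at hk
  · have h1 := free_comp (free_map ι htr hB)
      (fun k : {k : (J ⊕ ℕ) ⊕ ℕ // k ∈ {k : (J ⊕ ℕ) ⊕ ℕ | k.isLeft = true}} =>
        k.1.getLeft k.2) (by
        rintro ⟨a | a, ha⟩ ⟨b | b, hb⟩ h
        · simp only [Sum.getLeft_inl] at h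
          simp only [h]
        · simp at hb
        · simp at ha
        · simp at ha)
    convert h1 using 1
    funext k
    obtain ⟨(j | n) | k, hk⟩ := k
    · exact range_comp ι (e j)
    · exact range_comp ι (f n)
    · simp at hk
  · let φ0 : {k : (J ⊕ ℕ) ⊕ ℕ // k ∉ {k : (J ⊕ ℕ) ⊕ ℕ | k.isLeft = true}} → ℕ :=
      fun k => k.1.elim (fun _ => 0) id
    have hφ0 : Function.Injective φ0 := by
      rintro ⟨a | a, ha⟩ ⟨b | b, hb⟩ h
      · simp at ha
      · simp at ha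
      · simp at hb
      · have h' : a = b := h
        simp only [h']
    have h1 := free_comp hfree (Option.map φ0) (Option.map_injective hφ0)
    convert h1 using 1
    funext o
    rcases o with _ | ⟨k | k, hk⟩
    · rfl
    · simp at hk
    · rfl

/-- the new copies of `C([0,1])` -/
def Fn {A B : Type} [CStarAlgebra A] [CStarAlgebra B]
    (f : ℕ → (C(unitInterval, ℂ) →⋆ₐ[ℂ] B)) (ι : B →⋆ₐ[ℂ] A)
    (g : ℕ → (C(unitInterval, ℂ) →⋆ₐ[ℂ] A)) (x : ℕ ⊕ ℕ) : C(unitInterval, ℂ) →⋆ₐ[ℂ] A :=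
  x.elim (fun m => ι.comp (f m)) g

theorem rfpA {J : Type} {D : J → Type} [∀ j, CStarAlgebra (D j)] {t : ∀ j, D j → ℂ}
    {A B : Type} [CStarAlgebra A] [CStarAlgebra B] {τ : B →ₗ[ℂ] ℂ} {τA : A →ₗ[ℂ] ℂ}
    (hA : FTS τA) {e : ∀ j, D j →⋆ₐ[ℂ] B} {f : ℕ → (C(unitInterval, ℂ) →⋆ₐ[ℂ] B)}
    (hB : RFPw D t τ e f) (ι : B →⋆ₐ[ℂ] A) (g : ℕ → (C(unitInterval, ℂ) →⋆ₐ[ℂ] A))
    (htr : ∀ x, τA (ι x) = τ x) (hgtr : ∀ k x, τA (g k x) = leb x)
    (hfree : FreeFam τA (fun o : Option ℕ => o.elim ι.range fun k => (g k).range))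
    (hgen : (StarAlgebra.adjoin ℂ (Set.range ι ∪ ⋃ k, Set.range (g k))
      ).topologicalClosure = ⊤) (N : ℕ) :
    RFPw D t τA (fun j => ι.comp (e j)) (fun i => Fn f ι g (E1 N i)) := by
  refine ⟨hA, ?_, ?_, ?_, ?_⟩
  · intro j x
    exact (htr _).trans (hB.tr j x)
  · intro n x
    show τA (Fn f ι g (E1 N n) x) = leb x
    rcases E1 N n with m | k
    · exact (htr _).trans (hB.trf m x)
    · exact hgtr k x
  · have h1 := free_comp (big_free hA e f ι g htr hB.free hfree)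
      (fun o : J ⊕ ℕ => o.elim (fun j => Sum.inl (Sum.inl j)) fun i =>
        (E1 N i).elim (fun m => (Sum.inl (Sum.inr m) : (J ⊕ ℕ) ⊕ ℕ)) fun k => Sum.inr k) (by
        have hinj : Function.Injective fun x : ℕ ⊕ ℕ =>
            x.elim (fun m => (Sum.inl (Sum.inr m) : (J ⊕ ℕ) ⊕ ℕ)) fun k => Sum.inr k := by
          rintro (a | a) (b | b) h <;> simp at h <;> simp [h]
        have hE : Function.Injective (E1 N) := (Function.LeftInverse.injective (E21 N))
        rintro (a | a) (b | b) h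
        · simp only [Sum.elim_inl, Sum.inl.injEq] at h
          rw [h]
        · simp only [Sum.elim_inl, Sum.elim_inr] at h
          rcases hb : E1 N b with m | k <;> rw [hb] at h <;> simp at h
        · simp only [Sum.elim_inl, Sum.elim_inr] at h
          rcases ha : E1 N a with m | k <;> rw [ha] at h <;> simp at h
        · simp only [Sum.elim_inr] at h
          rw [hE (hinj h)])
    convert h1 using 1
    funext o
    rcases o with j | i
    · rfl
    · show (Fn f ι g (E1 N i)).range = _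
      simp only [Sum.elim_inr]
      rcases E1 N i with m | k
      · rfl
      · rfl
  · set M := (StarAlgebra.adjoin ℂ ((⋃ j, Set.range (ι.comp (e j))) ∪
      ⋃ n, Set.range (Fn f ι g (E1 N n)))).topologicalClosure with hM
    have hsub : ((⋃ j, Set.range (ι.comp (e j))) ∪ ⋃ n, Set.range (Fn f ι g (E1 N n))) ⊆
        (M : Set A) := (StarAlgebra.subset_adjoin ℂ _).trans
          (StarSubalgebra.le_topologicalClosure _)
    have hMc : IsClosed (M : Set A) := StarSubalgebra.isClosed_topologicalClosure _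
    have hall : ∀ x : ℕ ⊕ ℕ, ∀ y, Fn f ι g x y ∈ M := by
      intro x y
      apply hsub
      refine Or.inr (Set.mem_iUnion.mpr ⟨E2 N x, ?_⟩)
      rw [E12]
      exact ⟨y, rfl⟩
    have hιM : ∀ y, ι y ∈ M := by
      have h1 : (StarAlgebra.adjoin ℂ ((⋃ j, Set.range (e j)) ∪ ⋃ n, Set.range (f n))
          ).topologicalClosure ≤ M.comap ι := by
        refine StarSubalgebra.topologicalClosure_minimal ?_ ?_
        · refine StarAlgebra.adjoin_le ?_
          rintro y (hy | hy)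
          · obtain ⟨j, z, rfl⟩ := Set.mem_iUnion.mp hy
            exact hsub (Or.inl (Set.mem_iUnion.mpr ⟨j, z, rfl⟩))
          · obtain ⟨n, z, rfl⟩ := Set.mem_iUnion.mp hy
            exact hall (Sum.inl n) z
        · exact hMc.preimage (AddMonoidHomClass.continuous_of_bound ι 1 fun x => by
            rw [one_mul]; exact NonUnitalStarAlgHom.norm_apply_le ι x)
      rw [hB.gen] at h1
      intro y
      exact h1 (show y ∈ (⊤ : StarSubalgebra ℂ B) from trivial)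
    rw [eq_top_iff, ← hgen]
    refine StarSubalgebra.topologicalClosure_minimal ?_ hMc
    refine StarAlgebra.adjoin_le ?_
    rintro y (hy | hy)
    · obtain ⟨z, rfl⟩ := hy
      exact hιM z
    · obtain ⟨k, z, rfl⟩ := Set.mem_iUnion.mp hy
      exact hall (Sum.inr k) z

end DBL

theorem t_DBL : S_DBL := by
  intro J D _ t B _ τ e f hB F ε hε
  obtain ⟨l, hl, hleb⟩ := T_LEBF.t_LEBF
  let DK : Option ℕ → Type := fun o => match o with
    | none => B
    | some _ => C(unitInterval, ℂ)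
  let iDK : ∀ o, CStarAlgebra (DK o) := fun o => match o with
    | none => (inferInstance : CStarAlgebra B)
    | some _ => (inferInstance : CStarAlgebra C(unitInterval, ℂ))
  let tK : ∀ o, DK o →ₗ[ℂ] ℂ := fun o => match o with
    | none => τ
    | some _ => l
  have htK : ∀ o, FTS (tK o) := by
    rintro (_ | n)
    · exact hB.fts
    · exact hl
  obtain ⟨A, iA, τA, eA, hR⟩ := DBL.ex (Option ℕ) DK iDK tK htK
  let ι : B →⋆ₐ[ℂ] A := eA none
  let g : ℕ → (C(unitInterval, ℂ) →⋆ₐ[ℂ] A) := fun k => eA (some k)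
  have htr : ∀ x, τA (ι x) = τ x := fun x => hR.tr none x
  have hgtr : ∀ k x, τA (g k x) = leb x := fun k x => (hR.tr (some k) x).trans (hleb x)
  have hfree : FreeFam τA (fun o : Option ℕ => o.elim ι.range fun k => (g k).range) := by
    have h1 := hR.free
    have h2 : (fun o : Option ℕ => o.elim ι.range fun k => (g k).range) =
        fun o => (eA o).range := by
      funext o
      rcases o with _ | k <;> rfl
    exact h2 ▸ h1
  have hgen : (StarAlgebra.adjoin ℂ (Set.range ι ∪ ⋃ k, Set.range (g k))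
      ).topologicalClosure = ⊤ := by
    rw [← hR.gen]
    congr 2
    ext b
    simp only [Set.mem_union, Set.mem_iUnion]
    constructor
    · rintro (h | ⟨n, hn⟩)
      · exact ⟨none, h⟩
      · exact ⟨some n, hn⟩
    · rintro ⟨_ | n, h⟩
      · exact Or.inl h
      · exact Or.inr ⟨n, h⟩
  have hinj : Function.Injective ι := by
    rw [injective_iff_map_eq_zero]
    intro z hz
    apply hB.fts.faith
    rw [← htr, map_mul, map_star, hz]
    simp
  obtain ⟨N, hN⟩ := DBL.fin_approx e f hB.gen F (ε / 2) (by positivity)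
  have hRA := DBL.rfpA hR.fts hB ι g htr hgtr hfree hgen N
  obtain ⟨Φ, hΦ, -⟩ := DBL.uniq (J ⊕ ℕ) (DBL.DD D) (DBL.tt t) A B τA τ _ _
    (DBL.rfp_of hRA) (DBL.rfp_of hB)
  refine ⟨A, iA, τA, ι, g, Φ, hR.fts, hinj, htr, hgtr, hfree, fun x hx => ?_⟩
  obtain ⟨y, hy, hxy⟩ := hN x hx
  have hfix : Φ (ι y) = y := by
    clear hxy
    induction hy using StarAlgebra.adjoin_induction with
    | mem x hx =>
      rcases hx with hx | hx
      · obtain ⟨j, z, rfl⟩ := Set.mem_iUnion.mp hx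
        exact hΦ (Sum.inl j) z
      · obtain ⟨n, hn, z, rfl⟩ := Set.mem_iUnion₂.mp hx
        have h1 := hΦ (Sum.inr n) z
        have h2 : DBL.ee (fun j => ι.comp (e j)) (fun i => DBL.Fn f ι g (DBL.E1 N i))
            (Sum.inr n) = ι.comp (f n) := by
          show DBL.Fn f ι g (DBL.E1 N n) = ι.comp (f n)
          rw [DBL.E1_lt hn]
          rfl
        rw [h2] at h1
        exact h1
    | algebraMap r =>
      rw [AlgHomClass.commutes ι r]
      exact AlgHomClass.commutes Φ r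
    | add x y _ _ hx hy => rw [map_add, map_add, hx, hy]
    | mul x y _ _ hx hy => rw [map_mul, map_mul, hx, hy]
    | star x _ hx => rw [map_star, map_star, hx]
  have h1 : Φ (ι x) - x = Φ (ι (x - y)) - (x - y) := by
    rw [map_sub, map_sub, hfix]
    abel
  rw [h1]
  calc ‖Φ (ι (x - y)) - (x - y)‖ ≤ ‖Φ (ι (x - y))‖ + ‖x - y‖ := norm_sub_le _ _
    _ ≤ ‖x - y‖ + ‖x - y‖ := by
        gcongr
        have h2 : ‖Φ (ι (x - y))‖ = ‖ι (x - y)‖ := StarAlgEquiv.norm_map Φ _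
        rw [h2]
        exact NonUnitalStarAlgHom.norm_apply_le ι _
    _ < ε := by linarith

end Pool.Agent.N207.UN
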